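import Pool.Agent.Helper79.BPath.Defs

/-!
# MP_436e6e_lc, piece B: the machine counting the strings of the oracle in a region
-/

namespace Pool.Agent.Helper59.BPath

open Pool.Agent.BPath

/-- The strings `1^i 0 u` with `|u| = 4 n`. -/
def region (i n : ℕ) : Set (List Bool) :=
  {s | ∃ u : List Bool, u.length = 4 * n ∧ s = List.replicate i true ++ false :: u}

/-! ### Counting words -/

open Classical in
/-- The number of words of length `n` with property `P`. -/
noncomputable def cnt : ℕ → (List Bool → Prop) → ℕ
  | 0, P => if P [] then 1 else 0
  | n + 1, P => cnt n (fun u => P (u ++ [false])) + cnt n (fun u => P (u ++ [true]))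

theorem cnt_add_not (n : ℕ) : ∀ P : List Bool → Prop, cnt n P + cnt n (fun u => ¬ P u) = 2 ^ n := by
  classical
  induction n with
  | zero => intro P; simp only [cnt]; by_cases h : P [] <;> simp [h]
  | succ n ih =>
    intro P
    simp only [cnt]
    have h1 := ih (fun u => P (u ++ [false]))
    have h2 := ih (fun u => P (u ++ [true]))
    rw [pow_succ]
    omega

theorem finite_len (n : ℕ) (P : List Bool → Prop) : {u : List Bool | u.length = n ∧ P u}.Finite :=
  (List.finite_length_eq Bool n).subset fun _ h => h.1

theorem cnt_eq_ncard (n : ℕ) : ∀ P : List Bool → Prop,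
    cnt n P = {u : List Bool | u.length = n ∧ P u}.ncard := by
  classical
  induction n with
  | zero =>
    intro P
    simp only [cnt]
    by_cases h : P []
    · have : {u : List Bool | u.length = 0 ∧ P u} = {[]} := by
        ext u
        simp only [Set.mem_ofPred_eq, Set.mem_singleton_iff, List.length_eq_zero_iff]
        constructor
        · rintro ⟨h, _⟩; exact h
        · rintro rfl; exact ⟨rfl, h⟩
      rw [this, Set.ncard_singleton, if_pos h]
    · have : {u : List Bool | u.length = 0 ∧ P u} = ∅ := by
        ext u
        simp only [Set.mem_ofPred_eq, Set.mem_empty_iff_false, List.length_eq_zero_iff, iff_false]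
        rintro ⟨rfl, h'⟩; exact h h'
      rw [this, Set.ncard_empty, if_neg h]
  | succ n ih =>
    intro P
    simp only [cnt]
    rw [ih, ih]
    have hset : {u : List Bool | u.length = n + 1 ∧ P u} =
        (fun u : List Bool => u ++ [false]) '' {u | u.length = n ∧ P (u ++ [false])} ∪
        (fun u : List Bool => u ++ [true]) '' {u | u.length = n ∧ P (u ++ [true])} := by
      ext u
      simp only [Set.mem_ofPred_eq, Set.mem_union, Set.mem_image]
      constructor
      · rintro ⟨hl, hP⟩
        rcases List.eq_nil_or_concat' u with rfl | ⟨v, b, rfl⟩
        · exact absurd hl (by simp)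
        · simp only [List.length_append, List.length_cons, List.length_nil] at hl
          rcases b with _ | _
          · left; exact ⟨v, ⟨by omega, hP⟩, rfl⟩
          · right; exact ⟨v, ⟨by omega, hP⟩, rfl⟩
      · rintro (⟨v, ⟨hl, hP⟩, rfl⟩ | ⟨v, ⟨hl, hP⟩, rfl⟩)
        · exact ⟨by simp [hl], hP⟩
        · exact ⟨by simp [hl], hP⟩
    have hdis : Disjoint ((fun u : List Bool => u ++ [false]) '' {u | u.length = n ∧ P (u ++ [false])})
        ((fun u : List Bool => u ++ [true]) '' {u | u.length = n ∧ P (u ++ [true])}) := by
      rw [Set.disjoint_left]
      rintro _ ⟨v, _, rfl⟩ ⟨w, _, h⟩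
      have h' := congrArg List.getLast? h
      simp at h'
    rw [hset, Set.ncard_union_eq hdis ((finite_len n _).image _) ((finite_len n _).image _)]
    rw [Set.ncard_image_of_injective _ (fun a b h => by simpa using h),
        Set.ncard_image_of_injective _ (fun a b h => by simpa using h)]

/-! ### The machine -/

/-- The move from state `0` reading a zero: push the word `w` on stack `1`. -/
def mvW (b c : Option (Sym 0)) (w : List Bool) : Move 1 0 3 :=
  ((0 : Fin 4), ![[], w.map Sum.inl ++ b.toList, Sum.inl true :: c.toList])

/-- The words of length four, except the first one. -/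
def ws : List (List Bool) :=
  [[true, false, false, false], [false, true, false, false], [true, true, false, false],
   [false, false, true, false], [true, false, true, false], [false, true, true, false],
   [true, true, true, false],
   [false, false, false, true], [true, false, false, true], [false, true, false, true],
   [true, true, false, true],
   [false, false, true, true], [true, false, true, true], [false, true, true, true],
   [true, true, true, true]]

/-- The machine. -/
def mch (i : ℕ) : Machine where
  k := 1
  s := 0
  q := 3
  act := fun st tops =>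
    match st with
    | 0 =>
      match tops 0 with
      | some (Sum.inl false) =>
        .branch (mvW (tops 1) (tops 2) [false, false, false, false])
          (ws.map (mvW (tops 1) (tops 2)))
      | none =>
        .branch ((1 : Fin 4), ![[], (List.replicate i true ++ [false]).map Sum.inl ++
          (tops 1).toList, (tops 2).toList]) []
      | some _ => .reject
    | 1 => .query 2 3
    | 2 =>
      match tops 2 with
      | none => .accept
      | some _ => .branch ((2 : Fin 4), ![(tops 0).toList, (tops 1).toList, []])
          (List.replicate 7 ((2 : Fin 4), ![(tops 0).toList, (tops 1).toList, []]))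
    | 3 => .reject

/-- Configurations of the machine. -/
def cfg (i : ℕ) (st : Fin 4) (a b c : List (Sym 0)) : Cfg (mch i) := ⟨st, ![a, b, c]⟩

theorem head_tail {α : Type*} (b : List α) : b.head?.toList ++ b.tail = b := by
  cases b <;> simp

/-- The bits of a stack. -/
def bt (b : List (Sym 0)) : List Bool := b.filterMap Sum.getLeft?

theorem instr_zero (i : ℕ) (a b c : List (Sym 0)) :
    (mch i).instr (cfg i 0 (Sum.inl false :: a) b c) =
      .branch (mvW b.head? c.head? [false, false, false, false])
        (ws.map (mvW b.head? c.head?)) := rfl

theorem instr_one (i : ℕ) (a b c : List (Sym 0)) :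
    (mch i).instr (cfg i 0 (Sum.inl true :: a) b c) = .reject := rfl

theorem instr_nil (i : ℕ) (b c : List (Sym 0)) :
    (mch i).instr (cfg i 0 [] b c) =
      .branch ((1 : Fin 4), ![[], (List.replicate i true ++ [false]).map Sum.inl ++
          b.head?.toList, c.head?.toList]) [] := rfl

theorem instr_st1 (i : ℕ) (a b c : List (Sym 0)) :
    (mch i).instr (cfg i 1 a b c) = .query (2 : Fin 4) (3 : Fin 4) := rfl

theorem instr_st3 (i : ℕ) (a b c : List (Sym 0)) :
    (mch i).instr (cfg i 3 a b c) = .reject := rfl

theorem instr_st2_nil (i : ℕ) (a b : List (Sym 0)) :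
    (mch i).instr (cfg i 2 a b []) = .accept := rfl

theorem instr_st2_cons (i : ℕ) (a b c : List (Sym 0)) (x : Sym 0) :
    (mch i).instr (cfg i 2 a b (x :: c)) =
      .branch ((2 : Fin 4), ![a.head?.toList, b.head?.toList, []])
          (List.replicate 7 ((2 : Fin 4), ![a.head?.toList, b.head?.toList, []])) := rfl

theorem move_zero (i : ℕ) (a b c : List (Sym 0)) (w : List Bool) (x : Sym 0) :
    (mch i).move (cfg i 0 (x :: a) b c) (mvW b.head? c.head? w) =
      cfg i 0 a (w.map Sum.inl ++ b) (Sum.inl true :: c) := by
  unfold Machine.move cfg mvW
  congr 1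
  funext j
  have hj : ∀ j : Fin 3, (![[], w.map Sum.inl ++ b.head?.toList, Sum.inl true :: c.head?.toList] :
      Fin 3 → List (Sym 0)) j ++ ((![x :: a, b, c] : Fin 3 → List (Sym 0)) j).tail =
      (![a, w.map Sum.inl ++ b, Sum.inl true :: c] : Fin 3 → List (Sym 0)) j := by
    intro j
    fin_cases j
    · rfl
    · exact (List.append_assoc _ _ _).trans (congrArg (fun z => w.map Sum.inl ++ z) (head_tail b))
    · exact congrArg (fun z => Sum.inl true :: z) (head_tail c)
  exact hj j

theorem move_nil (i : ℕ) (b c : List (Sym 0)) (w : List (Sym 0)) :
    (mch i).move (cfg i 0 [] b c) ((1 : Fin 4), ![[], w ++ b.head?.toList, c.head?.toList]) =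
      cfg i 1 [] (w ++ b) c := by
  unfold Machine.move cfg
  congr 1
  funext j
  have hj : ∀ j : Fin 3, (![[], w ++ b.head?.toList, c.head?.toList] :
      Fin 3 → List (Sym 0)) j ++ ((![[], b, c] : Fin 3 → List (Sym 0)) j).tail =
      (![[], w ++ b, c] : Fin 3 → List (Sym 0)) j := by
    intro j
    fin_cases j
    · rfl
    · exact (List.append_assoc _ _ _).trans (congrArg (fun z => w ++ z) (head_tail b))
    · exact head_tail c
  exact hj j

theorem move_st2 (i : ℕ) (a b c : List (Sym 0)) (x : Sym 0) :
    (mch i).move (cfg i 2 a b (x :: c)) ((2 : Fin 4), ![a.head?.toList, b.head?.toList, []]) =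
      cfg i 2 a b c := by
  unfold Machine.move cfg
  congr 1
  funext j
  have hj : ∀ j : Fin 3, (![a.head?.toList, b.head?.toList, []] :
      Fin 3 → List (Sym 0)) j ++ ((![a, b, x :: c] : Fin 3 → List (Sym 0)) j).tail =
      (![a, b, c] : Fin 3 → List (Sym 0)) j := by
    intro j
    fin_cases j
    · exact head_tail a
    · exact head_tail b
    · rfl
  exact hj j

/-! ### Counting paths -/

/-- `1` if the outcome is `b`. -/
def ind (o : Option Bool) (b : Bool) : ℕ := if o = some b then 1 else 0

theorem paths_accept (i : ℕ) (X : Set (List Bool)) (o : Option Bool) (T : ℕ) (c : Cfg (mch i))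
    (h : (mch i).instr c = .accept) : (mch i).paths X o T c = ind o true := by
  cases T <;> simp [Machine.paths, h, ind]

theorem paths_reject (i : ℕ) (X : Set (List Bool)) (o : Option Bool) (T : ℕ) (c : Cfg (mch i))
    (h : (mch i).instr c = .reject) : (mch i).paths X o T c = ind o false := by
  cases T <;> simp [Machine.paths, h, ind]

theorem paths_st2 (i : ℕ) (X : Set (List Bool)) (o : Option Bool) (a b : List (Sym 0)) :
    ∀ (c : List (Sym 0)) (T : ℕ), c.length ≤ T →
      (mch i).paths X o T (cfg i 2 a b c) = 8 ^ c.length * ind o true := by
  intro c
  induction c with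
  | nil =>
    intro T _
    rw [paths_accept i X o T _ (instr_st2_nil i a b)]
    simp
  | cons x c ih =>
    intro T hT
    cases T with
    | zero => simp at hT
    | succ T =>
      have hT' : c.length ≤ T := by simpa using hT
      rw [Machine.paths, instr_st2_cons]
      simp only [List.map_replicate, move_st2, ih T hT', List.sum_replicate, List.length_cons]
      rw [pow_succ]
      simp only [smul_eq_mul]
      ring

open Classical in
theorem paths_st1 (i : ℕ) (X : Set (List Bool)) (o : Option Bool) (a b c : List (Sym 0)) (T : ℕ)
    (hT : c.length + 1 ≤ T) :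
    (mch i).paths X o T (cfg i 1 a b c) =
      if bt b ∈ X then 8 ^ c.length * ind o true else ind o false := by
  cases T with
  | zero => simp at hT
  | succ T =>
    rw [Machine.paths, instr_st1]
    simp only
    by_cases h : bt b ∈ X
    · rw [if_pos h]
      have : (mch i).answer X (cfg i 1 a b c) (2 : Fin 4) (3 : Fin 4) = cfg i 2 a b c := by
        unfold Machine.answer cfg
        congr 1
        exact if_pos h
      rw [this]
      exact paths_st2 i X o a b c T (by omega)
    · rw [if_neg h]
      have : (mch i).answer X (cfg i 1 a b c) (2 : Fin 4) (3 : Fin 4) = cfg i 3 a b c := by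
        unfold Machine.answer cfg
        congr 1
        exact if_neg h
      rw [this]
      exact paths_reject i X o T _ (instr_st3 i a b c)

theorem bits_map (w : List Bool) (b : List (Sym 0)) :
    bt (w.map Sum.inl ++ b) = w ++ bt b := by
  unfold bt
  rw [List.filterMap_append]
  congr 1
  induction w with
  | nil => rfl
  | cons x w ih => simp

theorem bits_eq (i : ℕ) (b : List (Sym 0)) : (mch i).bits b = bt b := rfl

/-- The prefix of the queries. -/
def pre (i : ℕ) : List Bool := List.replicate i true ++ [false]

theorem cnt_congr (n : ℕ) {P Q : List Bool → Prop} (h : ∀ u, P u ↔ Q u) : cnt n P = cnt n Q := by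
  have : P = Q := funext fun u => propext (h u)
  rw [this]

theorem paths_zeros (i : ℕ) (X : Set (List Bool)) (o : Option Bool) :
    ∀ (m T : ℕ) (b c : List (Sym 0)), 2 * m + c.length + 2 ≤ T →
      (mch i).paths X o T (cfg i 0 (List.replicate m (Sum.inl false)) b c) =
        cnt (4 * m) (fun u => pre i ++ (u ++ bt b) ∈ X) * (8 ^ (c.length + m) * ind o true)
        + cnt (4 * m) (fun u => ¬ (pre i ++ (u ++ bt b) ∈ X)) * ind o false := by
  classical
  intro m
  induction m with
  | zero =>
    intro T b c hT
    cases T with
    | zero => omega
    | succ T =>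
      rw [Machine.paths]
      simp only [List.replicate_zero, instr_nil, List.map_nil, List.sum_nil, Nat.add_zero]
      have hm := move_nil i b c ((List.replicate i true ++ [false]).map Sum.inl)
      refine (congrArg (fun z => (mch i).paths X o T z) hm).trans ?_
      rw [paths_st1 _ _ _ _ _ _ _ (by omega)]
      change (if bt (List.map Sum.inl (List.replicate i true ++ [false]) ++ b) ∈ X then _ else _) = _
      rw [bits_map]
      simp only [cnt, List.nil_append]
      unfold pre
      by_cases h : (List.replicate i true ++ [false] ++ bt b) ∈ X
      · rw [if_pos h, if_pos h, if_neg (not_not.mpr h)]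
        simp
      · rw [if_neg h, if_neg h, if_pos h]
        simp
  | succ m ih =>
    intro T b c hT
    cases T with
    | zero => omega
    | succ T =>
      rw [Machine.paths]
      simp only [List.replicate_succ, instr_zero, ws, List.map_cons, List.map_nil, List.sum_cons,
        List.sum_nil, Nat.add_zero, move_zero]
      have key : ∀ w : List Bool, w.length = 4 →
          (mch i).paths X o T (cfg i 0 (List.replicate m (Sum.inl false)) (w.map Sum.inl ++ b)
            (Sum.inl true :: c)) =
          cnt (4 * m) (fun u => pre i ++ ((u ++ w) ++ bt b) ∈ X) *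
            (8 ^ (c.length + (m + 1)) * ind o true)
          + cnt (4 * m) (fun u => ¬ (pre i ++ ((u ++ w) ++ bt b) ∈ X)) * ind o false := by
        intro w _
        rw [ih T (w.map Sum.inl ++ b) (Sum.inl true :: c) (by simp; omega), bits_map]
        simp only [List.length_cons, List.append_assoc]
        rw [show c.length + 1 + m = c.length + (m + 1) by omega]
      have e : ∀ w : List Bool, List.map Sum.inl w = (w.map Sum.inl : List (Sym 0)) := fun _ => rfl
      have h0 := key [false, false, false, false] rfl
      have h1 := key [true, false, false, false] rfl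
      have h2 := key [false, true, false, false] rfl
      have h3 := key [true, true, false, false] rfl
      have h4 := key [false, false, true, false] rfl
      have h5 := key [true, false, true, false] rfl
      have h6 := key [false, true, true, false] rfl
      have h7 := key [true, true, true, false] rfl
      have h8 := key [false, false, false, true] rfl
      have h9 := key [true, false, false, true] rfl
      have h10 := key [false, true, false, true] rfl
      have h11 := key [true, true, false, true] rfl
      have h12 := key [false, false, true, true] rfl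
      have h13 := key [true, false, true, true] rfl
      have h14 := key [false, true, true, true] rfl
      have h15 := key [true, true, true, true] rfl
      simp only [List.map_cons, List.map_nil] at h0 h1 h2 h3 h4 h5 h6 h7 h8 h9 h10 h11 h12 h13 h14 h15
      rw [h0, h1, h2, h3, h4, h5, h6, h7, h8, h9, h10, h11, h12, h13, h14, h15]
      rw [show 4 * (m + 1) = 4 * m + 1 + 1 + 1 + 1 by ring]
      simp only [cnt, List.append_assoc, List.cons_append, List.nil_append]
      ring

theorem paths_bad (i : ℕ) (X : Set (List Bool)) (o : Option Bool) :
    ∀ (w : List Bool), true ∈ w → ∃ N : ℕ, 1 ≤ N ∧ ∀ (T : ℕ) (b c : List (Sym 0)), w.length ≤ T →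
      (mch i).paths X o T (cfg i 0 (w.map Sum.inl) b c) = N * ind o false := by
  intro w
  induction w with
  | nil => intro h; simp at h
  | cons x w ih =>
    intro h
    cases x with
    | true =>
      refine ⟨1, le_rfl, ?_⟩
      intro T b c _
      rw [List.map_cons, paths_reject i X o T _ (instr_one i _ b c), one_mul]
    | false =>
      have hw : true ∈ w := by simpa using h
      obtain ⟨N, hN, hp⟩ := ih hw
      refine ⟨16 * N, by omega, ?_⟩
      intro T b c hT
      cases T with
      | zero => simp at hT
      | succ T =>
        have hT' : w.length ≤ T := by simpa using hT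
        rw [Machine.paths]
        simp only [List.map_cons, instr_zero, ws, List.map_nil, List.sum_cons,
          List.sum_nil, Nat.add_zero, move_zero]
        simp only [hp T _ _ hT']
        ring

theorem init_eq (i : ℕ) (w : List Bool) : (mch i).init w = cfg i 0 (w.map Sum.inl) [] [] := by
  unfold Machine.init cfg
  congr 1
  funext j
  have hj : ∀ j : Fin 3, (if j = 0 then w.map Sum.inl else [] : List (Sym 0)) =
      (![w.map Sum.inl, [], []] : Fin 3 → List (Sym 0)) j := by
    intro j
    fin_cases j <;> rfl
  exact hj j

theorem time_ok (n : ℕ) : 2 * n + 2 ≤ n ^ 3 + 3 := by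
  rcases n with _ | _ | n
  · norm_num
  · norm_num
  · nlinarith [sq_nonneg n, pow_pos (Nat.succ_pos n) 3]

theorem all_zeros_or (w : List Bool) : w = List.replicate w.length false ∨ true ∈ w := by
  induction w with
  | nil => left; rfl
  | cons x w ih =>
    cases x with
    | true => right; simp
    | false =>
      rcases ih with h | h
      · left
        rw [List.length_cons, List.replicate_succ, ← h]
      · right; simp [h]

theorem ncard_region (i n : ℕ) (X : Set (List Bool)) :
    (X ∩ region i n).ncard = cnt (4 * n) (fun u => pre i ++ (u ++ []) ∈ X) := by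
  rw [cnt_eq_ncard]
  have : X ∩ region i n = (fun u : List Bool => List.replicate i true ++ false :: u) ''
      {u : List Bool | u.length = 4 * n ∧ pre i ++ (u ++ []) ∈ X} := by
    ext s
    simp only [region, pre, Set.mem_inter_iff, Set.mem_ofPred_eq, Set.mem_image, List.append_nil,
      List.append_assoc, List.cons_append, List.nil_append]
    constructor
    · rintro ⟨hX, u, hu, rfl⟩
      exact ⟨u, ⟨hu, hX⟩, rfl⟩
    · rintro ⟨u, ⟨hu, hX⟩, rfl⟩
      exact ⟨hX, u, hu, rfl⟩
  rw [this, Set.ncard_image_of_injective]
  intro a b h
  simpa using h

/-- PIECE B. -/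
theorem exists_machine (i : ℕ) : ∃ (M : Machine) (c : ℕ), M.RunsInTime c ∧
    (∀ (X : Set (List Bool)) (n : ℕ),
      M.acc c X (List.replicate n false) = (X ∩ region i n).ncard * 8 ^ n ∧
      M.rej c X (List.replicate n false) = 16 ^ n - (X ∩ region i n).ncard) ∧
    (∀ (X : Set (List Bool)) (w : List Bool), (∀ n, w ≠ List.replicate n false) →
      M.acc c X w = 0 ∧ 1 ≤ M.rej c X w) := by
  refine ⟨mch i, 3, ?_, ?_, ?_⟩
  · intro X w
    rw [init_eq]
    rcases all_zeros_or w with h | h
    · rw [h, List.map_replicate, paths_zeros i X none w.length _ [] []
        (by simpa using time_ok w.length)]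
      simp [ind]
    · obtain ⟨N, _, hp⟩ := paths_bad i X none w h
      rw [hp _ [] [] (by have := time_ok w.length; omega)]
      simp [ind]
  · intro X n
    have hb : bt ([] : List (Sym 0)) = [] := rfl
    have hsum := cnt_add_not (4 * n) (fun u => pre i ++ (u ++ []) ∈ X)
    constructor
    · unfold Machine.acc
      rw [init_eq, List.map_replicate, paths_zeros i X (some true) n _ [] []
        (by simpa using time_ok n), hb, ← ncard_region]
      simp [ind]
    · unfold Machine.rej
      rw [init_eq, List.map_replicate, paths_zeros i X (some false) n _ [] []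
        (by simpa using time_ok n), hb, ← ncard_region]
      rw [← ncard_region, pow_mul, show (2 : ℕ) ^ 4 = 16 by norm_num] at hsum
      have h1 : ind (some false) true = 0 := rfl
      have h2 : ind (some false) false = 1 := rfl
      rw [h1, h2, mul_zero, mul_zero, zero_add, mul_one]
      omega
  · intro X w hw
    have h : true ∈ w := by
      rcases all_zeros_or w with h | h
      · exact absurd h (hw _)
      · exact h
    constructor
    · unfold Machine.acc
      rw [init_eq]
      obtain ⟨N, _, hp⟩ := paths_bad i X (some true) w h
      rw [hp _ [] [] (by have := time_ok w.length; omega)]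
      simp [ind]
    · unfold Machine.rej
      rw [init_eq]
      obtain ⟨N, hN, hp⟩ := paths_bad i X (some false) w h
      rw [hp _ [] [] (by have := time_ok w.length; omega)]
      simpa [ind] using hN

end Pool.Agent.Helper59.BPath
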